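import Mathlib

set_option autoImplicit false

open Set Topology

namespace Pool.Agent.H908R2.JOmega

/-- Points `pt a x` (column `a`, height `x`) and maximal points `mx a`. -/
inductive JP (W : Type) : Type
  | pt : W → W → JP W
  | mx : W → JP W

open JP

variable {W : Type} [LinearOrder W]

/-- Johnstone's order over the linear order `W`. -/
def jle : JP W → JP W → Prop
  | .pt a x, .pt b y => a = b ∧ x ≤ y
  | .pt a x, .mx b => a = b ∨ x ≤ b
  | .mx _, .pt _ _ => False
  | .mx a, .mx b => a = b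

instance : PartialOrder (JP W) where
  le := jle
  le_refl x := by
    cases x with
    | pt a x => exact ⟨rfl, le_rfl⟩
    | mx a => exact rfl
  le_trans x y z := by
    cases x with
    | pt a x =>
      cases y with
      | pt b y =>
        cases z with
        | pt c z =>
          rintro ⟨rfl, h1⟩ ⟨rfl, h2⟩
          exact ⟨rfl, h1.trans h2⟩
        | mx c =>
          rintro ⟨rfl, h1⟩ (rfl | h2)
          · exact Or.inl rfl
          · exact Or.inr (h1.trans h2)
      | mx b =>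
        cases z with
        | pt c z => exact fun _ h => h.elim
        | mx c =>
          rintro h (rfl : b = c)
          exact h
    | mx a =>
      cases y with
      | pt b y => exact fun h => h.elim
      | mx b =>
        rintro (rfl : a = b) h
        exact h
  le_antisymm x y := by
    cases x with
    | pt a x =>
      cases y with
      | pt b y =>
        rintro ⟨rfl, h1⟩ ⟨_, h2⟩
        rw [le_antisymm h1 h2]
      | mx b => exact fun _ h => h.elim
    | mx a =>
      cases y with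
      | pt b y => exact fun h => h.elim
      | mx b =>
        rintro (rfl : a = b) _
        rfl

@[simp] lemma pt_le_pt {a x b y : W} : (pt a x : JP W) ≤ pt b y ↔ a = b ∧ x ≤ y := Iff.rfl
@[simp] lemma pt_le_mx {a x b : W} : (pt a x : JP W) ≤ mx b ↔ a = b ∨ x ≤ b := Iff.rfl
@[simp] lemma mx_le_pt {a b y : W} : ¬ (mx a : JP W) ≤ pt b y := fun h => h
@[simp] lemma mx_le_mx {a b : W} : (mx a : JP W) ≤ mx b ↔ a = b := Iff.rfl

lemma mx_le_iff {a : W} {z : JP W} : mx a ≤ z ↔ z = mx a := by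
  cases z with
  | pt b y => simp
  | mx b =>
    rw [mx_le_mx]
    constructor
    · rintro rfl; rfl
    · intro h; cases h; rfl

/-- In a directed set without maximal points all points lie in one column. -/
lemma column_of_directed {d : Set (JP W)} (hd : DirectedOn (· ≤ ·) d) {a x : W}
    (hax : (pt a x : JP W) ∈ d) (hmx : ∀ b, (mx b : JP W) ∉ d) {z : JP W} (hz : z ∈ d) :
    ∃ y, z = pt a y := by
  obtain ⟨w, hw, h1, h2⟩ := hd _ hax _ hz
  cases w with
  | mx b => exact (hmx b hw).elim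
  | pt b y =>
    cases z with
    | mx c => exact h2.elim
    | pt c z =>
      obtain ⟨rfl, _⟩ := h1
      obtain ⟨rfl, _⟩ := h2
      exact ⟨z, rfl⟩

lemma greatest_of_mem_mx {d : Set (JP W)} (hd : DirectedOn (· ≤ ·) d) {b : W}
    (hb : (mx b : JP W) ∈ d) : ∀ z ∈ d, z ≤ mx b := by
  intro z hz
  obtain ⟨w, hw, h1, h2⟩ := hd _ hb _ hz
  rw [mx_le_iff.1 h1] at h2
  exact h2

omit [LinearOrder W] in
lemma exists_pt_of_nonempty {d : Set (JP W)} (hne : d.Nonempty)
    (hmx : ∀ b, (mx b : JP W) ∉ d) : ∃ a x, (pt a x : JP W) ∈ d := by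
  obtain ⟨z, hz⟩ := hne
  cases z with
  | mx c => exact (hmx c hz).elim
  | pt a x => exact ⟨a, x, hz⟩

/-- `JP W` is directed complete, for `W` well-ordered. -/
theorem dcpo [WellFoundedLT W] (d : Set (JP W)) (hne : d.Nonempty) (hd : DirectedOn (· ≤ ·) d) :
    ∃ x : JP W, IsLUB d x := by
  by_cases hmx : ∃ b, (mx b : JP W) ∈ d
  · obtain ⟨b, hb⟩ := hmx
    exact ⟨mx b, fun z hz => greatest_of_mem_mx hd hb z hz, fun u hu => hu hb⟩
  · push Not at hmx
    obtain ⟨a, x, hax⟩ := exists_pt_of_nonempty hne hmx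
    by_cases hbd : ∃ s, ∀ y, (pt a y : JP W) ∈ d → y ≤ s
    · obtain ⟨s, hs, hmin⟩ : ∃ s, (∀ y, (pt a y : JP W) ∈ d → y ≤ s) ∧
          ∀ s', (∀ y, (pt a y : JP W) ∈ d → y ≤ s') → s ≤ s' := by
        let S : Set W := {s | ∀ y, (pt a y : JP W) ∈ d → y ≤ s}
        have hS : S.Nonempty := hbd
        exact ⟨wellFounded_lt.min S hS, wellFounded_lt.min_mem S hS,
          fun s' hs' => not_lt.1 (wellFounded_lt.not_lt_min S hs')⟩
      refine ⟨pt a s, ?_, ?_⟩
      · intro z hz
        obtain ⟨y, rfl⟩ := column_of_directed hd hax hmx hz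
        exact ⟨rfl, hs y hz⟩
      · intro u hu
        cases u with
        | pt b y =>
          obtain ⟨rfl, _⟩ := hu hax
          exact ⟨rfl, hmin y fun y' hy' => (hu hy').2⟩
        | mx b =>
          by_cases hab : a = b
          · exact Or.inl hab
          · refine Or.inr (hmin b fun y' hy' => ?_)
            exact (hu hy').resolve_left hab
    · push Not at hbd
      refine ⟨mx a, ?_, ?_⟩
      · intro z hz
        obtain ⟨y, rfl⟩ := column_of_directed hd hax hmx hz
        exact Or.inl rfl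
      · intro u hu
        cases u with
        | pt b y =>
          obtain ⟨y', hy', hlt⟩ := hbd y
          exact absurd (hu hy').2 (not_le.2 hlt)
        | mx b =>
          by_contra hab
          obtain ⟨y', hy', hlt⟩ := hbd b
          rcases hu hy' with h | h
          · exact hab h
          · exact absurd h (not_le.2 hlt)

/-- No topology on `JP W` with the given specialisation order is sober. -/
theorem not_sober (hW : ∀ f : ℕ → W, ∃ b, ∀ n, f n < b) (w₀ : W)
    [TopologicalSpace (JP W)] (hcl : ∀ x : JP W, closure {x} = Iic x)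
    (hs : QuasiSober (JP W)) : False := by
  have hup : ∀ U : Set (JP W), IsOpen U → IsUpperSet U := by
    intro U hU x y hxy hx
    have : x ∈ closure ({y} : Set (JP W)) := by rw [hcl]; exact hxy
    obtain ⟨z, hz, hzy⟩ := mem_closure_iff.1 this U hU hx
    rw [mem_singleton_iff] at hzy
    rwa [← hzy]
  have hlt : ∀ x : W, ∃ y, x < y := fun x => by
    obtain ⟨b, hb⟩ := hW fun _ => x
    exact ⟨b, hb 0⟩
  -- an open set containing a maximal point meets its column
  have hcol : ∀ U : Set (JP W), IsOpen U → ∀ b, (mx b : JP W) ∈ U →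
      ∃ x, (pt b x : JP W) ∈ U := by
    intro U hU b hb
    by_contra hcon
    push Not at hcon
    let d : Set (JP W) := range fun x => pt b x
    have hirr : IsIrreducible (closure d) := by
      rw [isIrreducible_iff_closure]
      refine ⟨⟨pt b w₀, w₀, rfl⟩, ?_⟩
      rintro V V' hV hV' ⟨_, ⟨x, rfl⟩, hx⟩ ⟨_, ⟨y, rfl⟩, hy⟩
      refine ⟨pt b (max x y), ⟨_, rfl⟩, hup V hV ?_ hx, hup V' hV' ?_ hy⟩
      · exact ⟨rfl, le_max_left _ _⟩
      · exact ⟨rfl, le_max_right _ _⟩
    obtain ⟨m, hm⟩ := hs.sober hirr isClosed_closure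
    have hm' : Iic m = closure d := by rw [← hcl]; exact hm
    have hub : ∀ x, (pt b x : JP W) ≤ m := fun x => by
      have : (pt b x : JP W) ∈ Iic m := by rw [hm']; exact subset_closure ⟨x, rfl⟩
      exact this
    have hmb : m = mx b := by
      cases m with
      | pt c y =>
        obtain ⟨z, hz⟩ := hlt y
        exact absurd (hub z).2 (not_le.2 hz)
      | mx c =>
        by_cases hbc : b = c
        · rw [hbc]
        · obtain ⟨z, hz⟩ := hlt c
          exact absurd ((hub z).resolve_left hbc) (not_le.2 hz)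
    have hmem : m ∈ closure d := by rw [← hm']; exact le_refl m
    rw [hmb] at hmem
    obtain ⟨z, hz, x, hx⟩ := mem_closure_iff.1 hmem U hU hb
    exact hcon x (by rw [← hx] at hz; exact hz)
  -- every nonempty open set contains all maximal points above some height
  have hkey : ∀ U : Set (JP W), IsOpen U → U.Nonempty → ∃ x : W, ∀ c ≥ x, (mx c : JP W) ∈ U := by
    rintro U hU ⟨z, hz⟩
    obtain ⟨b, hb⟩ : ∃ b, (mx b : JP W) ∈ U := by
      cases z with
      | pt a x => exact ⟨a, hup U hU (Or.inl rfl) hz⟩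
      | mx b => exact ⟨b, hz⟩
    obtain ⟨x, hx⟩ := hcol U hU b hb
    exact ⟨x, fun c hc => hup U hU (Or.inr hc) hx⟩
  have hirr : IsIrreducible (univ : Set (JP W)) := by
    refine ⟨⟨mx w₀, trivial⟩, ?_⟩
    rintro V V' hV hV' ⟨v, _, hv⟩ ⟨v', _, hv'⟩
    obtain ⟨x, hx⟩ := hkey V hV ⟨v, hv⟩
    obtain ⟨x', hx'⟩ := hkey V' hV' ⟨v', hv'⟩
    exact ⟨mx (max x x'), trivial, hx _ (le_max_left _ _), hx' _ (le_max_right _ _)⟩
  obtain ⟨m, hm⟩ := hs.sober hirr isClosed_univ
  have hm' : Iic m = univ := by rw [← hcl]; exact hm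
  have htop : ∀ z, z ≤ m := fun z => by
    have : z ∈ Iic m := by rw [hm']; trivial
    exact this
  obtain ⟨w₁, hw₁⟩ := hlt w₀
  have h1 := mx_le_iff.1 (htop (mx w₀))
  have h2 := mx_le_iff.1 (htop (mx w₁))
  rw [h1] at h2
  cases h2
  exact lt_irrefl _ hw₁

/-- The Scott topology. -/
instance : TopologicalSpace (JP W) := Topology.scott (JP W) univ

instance : Topology.IsScott (JP W) univ := ⟨rfl⟩

lemma isClosed_of_bound {C : Set (JP W)} (hl : IsLowerSet C)
    (h : ∀ d ⊆ C, d.Nonempty → DirectedOn (· ≤ ·) d → ∃ u ∈ C, ∀ z ∈ d, z ≤ u) : IsClosed C := by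
  rw [Topology.IsScott.isClosed_iff_isLowerSet_and_dirSupClosed]
  refine ⟨hl, fun d hdC hne hd x hx => ?_⟩
  obtain ⟨u, hu, hub⟩ := h d hdC hne hd
  exact hl (hx.2 hub) hu

/-- The set of points of height at most `s` in the columns `A`. -/
def low (A : Set W) (s : W) : Set (JP W) := {z | ∃ a ∈ A, ∃ x ≤ s, z = pt a x}

lemma pt_mem_low {A : Set W} {s a x : W} : (pt a x : JP W) ∈ low A s ↔ a ∈ A ∧ x ≤ s := by
  constructor
  · rintro ⟨a', ha', x', hx', h⟩
    cases h
    exact ⟨ha', hx'⟩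
  · rintro ⟨ha, hx⟩
    exact ⟨a, ha, x, hx, rfl⟩

lemma mx_mem_low {A : Set W} {s a : W} : ¬ (mx a : JP W) ∈ low A s := by
  rintro ⟨a', ha', x', hx', h⟩
  cases h

lemma isClosed_low (A : Set W) (s : W) : IsClosed (low A s) := by
  refine isClosed_of_bound ?_ ?_
  · intro z w hwz hz
    obtain ⟨a, ha, x, hx, rfl⟩ := hz
    cases w with
    | pt b y =>
      obtain ⟨rfl, h⟩ := hwz
      exact pt_mem_low.2 ⟨ha, h.trans hx⟩
    | mx b => exact hwz.elim
  · intro d hdC hne hd
    have hmx : ∀ b, (mx b : JP W) ∉ d := fun b hb => mx_mem_low (hdC hb)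
    obtain ⟨a, x, hax⟩ := exists_pt_of_nonempty hne hmx
    refine ⟨pt a s, pt_mem_low.2 ⟨(pt_mem_low.1 (hdC hax)).1, le_rfl⟩, ?_⟩
    intro z hz
    obtain ⟨y, rfl⟩ := column_of_directed hd hax hmx hz
    exact ⟨rfl, (pt_mem_low.1 (hdC hz)).2⟩

/-- The columns `B` together with everything of height at most `s`. -/
def cols (B : Set W) (s : W) : Set (JP W) :=
  {z | (∃ b ∈ B, z = mx b) ∨ (∃ b x, z = pt b x ∧ (b ∈ B ∨ x ≤ s))}

lemma mx_mem_cols {B : Set W} {s a : W} : (mx a : JP W) ∈ cols B s ↔ a ∈ B := by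
  constructor
  · rintro (⟨b, hb, h⟩ | ⟨b, x, h, _⟩)
    · cases h; exact hb
    · cases h
  · intro h
    exact Or.inl ⟨a, h, rfl⟩

lemma pt_mem_cols {B : Set W} {s a x : W} : (pt a x : JP W) ∈ cols B s ↔ a ∈ B ∨ x ≤ s := by
  constructor
  · rintro (⟨b, hb, h⟩ | ⟨b, x, h, h'⟩)
    · cases h
    · cases h; exact h'
  · intro h
    exact Or.inr ⟨a, x, rfl, h⟩

lemma isClosed_cols {B : Set W} {s : W} (hs : ∀ b ∈ B, b ≤ s) : IsClosed (cols B s) := by
  refine isClosed_of_bound ?_ ?_
  · intro z w hwz hz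
    cases z with
    | pt a x =>
      cases w with
      | pt b y =>
        obtain ⟨rfl, h⟩ := hwz
        rw [pt_mem_cols] at hz ⊢
        exact hz.imp id fun h' => h.trans h'
      | mx b => exact hwz.elim
    | mx a =>
      rw [mx_mem_cols] at hz
      cases w with
      | pt b y =>
        rw [pt_mem_cols]
        rcases hwz with rfl | h
        · exact Or.inl hz
        · exact Or.inr (h.trans (hs _ hz))
      | mx b =>
        obtain rfl : b = a := hwz
        exact mx_mem_cols.2 hz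
  · intro d hdC hne hd
    by_cases hmx : ∃ b, (mx b : JP W) ∈ d
    · obtain ⟨b, hb⟩ := hmx
      exact ⟨mx b, hdC hb, greatest_of_mem_mx hd hb⟩
    · push Not at hmx
      obtain ⟨a, x, hax⟩ := exists_pt_of_nonempty hne hmx
      by_cases haB : a ∈ B
      · refine ⟨mx a, mx_mem_cols.2 haB, fun z hz => ?_⟩
        obtain ⟨y, rfl⟩ := column_of_directed hd hax hmx hz
        exact Or.inl rfl
      · refine ⟨pt a s, pt_mem_cols.2 (Or.inr le_rfl), fun z hz => ?_⟩
        obtain ⟨y, rfl⟩ := column_of_directed hd hax hmx hz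
        exact ⟨rfl, (pt_mem_cols.1 (hdC hz)).resolve_left haB⟩

/-- A compact set meets only finitely many columns below a given height. -/
lemma finite_cols_below {K : Set (JP W)} (hK : IsCompact K) (s : W) :
    {a | ∃ x ≤ s, (pt a x : JP W) ∈ K}.Finite := by
  have hK' : IsCompact (K ∩ low univ s) := hK.inter_right (isClosed_low _ _)
  obtain ⟨t, ht⟩ := hK'.elim_finite_subcover (fun a : W => (low {a}ᶜ s)ᶜ)
    (fun a => (isClosed_low _ _).isOpen_compl) (by
      rintro z ⟨_, hz⟩
      obtain ⟨a, _, x, hx, rfl⟩ := hz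
      refine mem_iUnion.2 ⟨a, ?_⟩
      rw [mem_compl_iff, pt_mem_low]
      exact fun h => h.1 rfl)
  refine t.finite_toSet.subset ?_
  rintro a ⟨x, hx, hax⟩
  have h := ht ⟨hax, pt_mem_low.2 ⟨mem_univ a, hx⟩⟩
  obtain ⟨b, hb, hab⟩ := mem_iUnion₂.1 h
  rw [mem_compl_iff, pt_mem_low] at hab
  have : a = b := by
    by_contra hne
    exact hab ⟨hne, hx⟩
  rw [this]
  exact hb

/-- A compact set meets only finitely many columns. -/
lemma finite_cols (hW : ∀ f : ℕ → W, ∃ b, ∀ n, f n < b) {K : Set (JP W)} (hK : IsCompact K) :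
    {a | ∃ x, (pt a x : JP W) ∈ K}.Finite := by
  by_contra hinf
  have hinf' : {a | ∃ x, (pt a x : JP W) ∈ K}.Infinite := hinf
  let f := hinf'.natEmbedding
  have hf : ∀ n, ∃ x, (pt (f n : W) x : JP W) ∈ K := fun n => (f n).2
  choose x hx using hf
  obtain ⟨s, hs⟩ := hW x
  have h1 := finite_cols_below hK s
  have h2 : (range fun n => (f n : W)).Infinite :=
    infinite_range_of_injective (fun m n h => f.injective (Subtype.ext h))
  refine h2 (h1.subset ?_)
  rintro _ ⟨n, rfl⟩
  exact ⟨x n, (hs n).le, hx n⟩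

/-- A compact set of maximal points is finite. -/
lemma finite_max (hW : ∀ f : ℕ → W, ∃ b, ∀ n, f n < b) {L : Set (JP W)} (hL : IsCompact L)
    (hmax : ∀ a x, (pt a x : JP W) ∉ L) : L.Finite := by
  have hfin : {b | (mx b : JP W) ∈ L}.Finite := by
    by_contra hinf
    have hinf' : {b | (mx b : JP W) ∈ L}.Infinite := hinf
    let f := hinf'.natEmbedding
    obtain ⟨s, hs⟩ := hW (fun n => (f n : W))
    let B : Set W := range fun n => (f n : W)
    have hB : ∀ b ∈ B, b ≤ s := by
      rintro _ ⟨n, rfl⟩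
      exact (hs n).le
    obtain ⟨t, ht⟩ := hL.elim_finite_subcover (fun b : W => (cols (B \ {b}) s)ᶜ)
      (fun b => (isClosed_cols fun c hc => hB c hc.1).isOpen_compl) (by
        intro z hz
        cases z with
        | pt a x => exact (hmax a x hz).elim
        | mx c =>
          refine mem_iUnion.2 ⟨c, ?_⟩
          rw [mem_compl_iff, mx_mem_cols]
          exact fun h => h.2 rfl)
    have h2 : B.Infinite :=
      infinite_range_of_injective (fun m n h => f.injective (Subtype.ext h))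
    refine h2 (t.finite_toSet.subset ?_)
    rintro _ ⟨n, rfl⟩
    have hmem : (mx (f n : W) : JP W) ∈ L := (f n).2
    obtain ⟨b, hb, hab⟩ := mem_iUnion₂.1 (ht hmem)
    rw [mem_compl_iff, mx_mem_cols] at hab
    have : (f n : W) = b := by
      by_contra hne
      exact hab ⟨⟨n, rfl⟩, hne⟩
    show (f n : W) ∈ _
    rw [this]
    exact hb
  refine (hfin.image mx).subset ?_
  intro z hz
  cases z with
  | pt a x => exact (hmax a x hz).elim
  | mx c => exact ⟨c, hz, rfl⟩

/-- Filtered families: finitely many requirements can be met at once. -/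
lemma fin_dir {α ι : Type*} {𝒦 : Set (Set α)} (hdir : DirectedOn (· ⊇ ·) 𝒦) {F : Set ι}
    (hF : F.Finite) (p : ι → Set α → Prop) (hmono : ∀ i K K', K' ⊆ K → p i K → p i K')
    {K₀ : Set α} (hK₀ : K₀ ∈ 𝒦) (h : ∀ i ∈ F, ∃ K ∈ 𝒦, p i K) :
    ∃ K ∈ 𝒦, K ⊆ K₀ ∧ ∀ i ∈ F, p i K := by
  induction F, hF using Set.Finite.induction_on with
  | empty => exact ⟨K₀, hK₀, Subset.rfl, fun i hi => hi.elim⟩
  | @insert a s _ _ ih =>
    obtain ⟨K, hK, hKK, hp⟩ := ih fun i hi => h i (mem_insert_of_mem _ hi)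
    obtain ⟨K', hK', hp'⟩ := h a (mem_insert _ _)
    obtain ⟨K'', hK'', h1, h2⟩ := hdir K hK K' hK'
    refine ⟨K'', hK'', Subset.trans h1 hKK, ?_⟩
    intro i hi
    rcases mem_insert_iff.1 hi with rfl | hi
    · exact hmono _ K' K'' h2 hp'
    · exact hmono _ K K'' h1 (hp i hi)

/-- The Scott space of `JP W` is well-filtered when `W` is well-ordered and every countable
subset of `W` is bounded. -/
theorem wellFiltered [WellFoundedLT W] (hW : ∀ f : ℕ → W, ∃ b, ∀ n, f n < b)
    (𝒦 : Set (Set (JP W))) (hne : 𝒦.Nonempty) (hdir : DirectedOn (· ⊇ ·) 𝒦)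
    (h𝒦 : ∀ K ∈ 𝒦, IsCompact K ∧ IsUpperSet K) (U : Set (JP W)) (hU : IsOpen U)
    (hsub : ⋂₀ 𝒦 ⊆ U) : ∃ K ∈ 𝒦, K ⊆ U := by
  by_contra hcon
  push Not at hcon
  have hUc := (Topology.IsScott.isClosed_iff_isLowerSet_and_dirSupClosed).1 hU.isClosed_compl
  obtain ⟨K₀, hK₀⟩ := hne
  by_cases hcase : ∃ K₁ ∈ 𝒦, ∀ a x, (pt a x : JP W) ∉ K₁ \ U
  · obtain ⟨K₁, hK₁, hmax⟩ := hcase
    have hfin : (K₁ \ U).Finite := finite_max hW ((h𝒦 K₁ hK₁).1.diff hU) hmax
    obtain ⟨K, hK, hKK, hp⟩ := fin_dir hdir hfin (fun x K => x ∉ K)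
      (fun i K K' h1 h2 h3 => h2 (h1 h3)) hK₁ (by
        intro x hx
        by_contra hcon'
        push Not at hcon'
        exact hx.2 (hsub (mem_sInter.2 hcon')))
    obtain ⟨y, hy, hyU⟩ := not_subset.1 (hcon K hK)
    exact hp y ⟨hKK hy, hyU⟩ hy
  · push Not at hcase
    obtain ⟨a, ha⟩ : ∃ a, ∀ K ∈ 𝒦, ∃ x, (pt a x : JP W) ∈ K \ U := by
      by_contra hcon'
      push Not at hcon'
      have hfin := finite_cols hW (h𝒦 K₀ hK₀).1
      obtain ⟨K, hK, hKK, hp⟩ := fin_dir hdir hfin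
        (fun a K => ∀ x, (pt a x : JP W) ∉ K \ U)
        (fun i K K' h1 h2 x h3 => h2 x ⟨h1 h3.1, h3.2⟩) hK₀ (fun a _ => hcon' a)
      obtain ⟨a, x, hax⟩ := hcase K hK
      exact hp a ⟨x, hKK hax.1⟩ x hax
    let d : Set (JP W) := {z | ∃ x, z = pt a x ∧ z ∉ U}
    have hdne : d.Nonempty := by
      obtain ⟨x, hx⟩ := ha K₀ hK₀
      exact ⟨pt a x, x, rfl, hx.2⟩
    have hdd : DirectedOn (· ≤ ·) d := by
      rintro _ ⟨x, rfl, hx⟩ _ ⟨y, rfl, hy⟩
      rcases le_total x y with h | h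
      · exact ⟨pt a y, ⟨y, rfl, hy⟩, ⟨rfl, h⟩, le_rfl⟩
      · exact ⟨pt a x, ⟨x, rfl, hx⟩, le_rfl, ⟨rfl, h⟩⟩
    obtain ⟨m, hm⟩ := dcpo d hdne hdd
    have hmU : m ∈ Uᶜ := hUc.2 (fun z hz => hz.choose_spec.2) hdne hdd hm
    refine hmU (hsub (mem_sInter.2 fun K hK => ?_))
    obtain ⟨x, hx⟩ := ha K hK
    exact (h𝒦 K hK).2 (hm.1 ⟨x, rfl, hx.2⟩) hx.1

/-- There is a well-order in `Type` in which every sequence is bounded. -/
theorem exists_W : ∃ (W : Type) (_ : LinearOrder W) (_ : WellFoundedLT W) (_ : W),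
    ∀ f : ℕ → W, ∃ b, ∀ n, f n < b := by
  refine ⟨(Cardinal.aleph.{0} 1).ord.ToType, inferInstance, inferInstance, ?_, ?_⟩
  · have h : Nonempty (Cardinal.aleph.{0} 1).ord.ToType := by
      rw [← Cardinal.mk_ne_zero_iff, Cardinal.mk_ord_toType]
      exact (Cardinal.aleph0_pos.trans Cardinal.aleph0_lt_aleph_one).ne'
    exact h.some
  · intro f
    by_contra hc
    push Not at hc
    have h1 : (Set.univ : Set (Cardinal.aleph.{0} 1).ord.ToType) ⊆ ⋃ n, Set.Iic (f n) := by
      intro a _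
      obtain ⟨n, hn⟩ := hc a
      exact Set.mem_iUnion.2 ⟨n, hn⟩
    have hIio : ∀ a : (Cardinal.aleph.{0} 1).ord.ToType, Countable (Set.Iio a) := by
      intro a
      have h : Cardinal.mk (Set.Iio a) < Cardinal.aleph 1 := Cardinal.mk_Iio_toType_ord_lt a
      have h1 : Cardinal.aleph 1 ≤ Order.succ (Cardinal.aleph0 : Cardinal.{0}) :=
        Cardinal.succ_aleph0.ge
      exact Cardinal.mk_le_aleph0_iff.1 (Order.lt_succ_iff.1 (h.trans_le h1))
    have h2 : (⋃ n, Set.Iic (f n)).Countable := by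
      refine Set.countable_iUnion fun n => ?_
      have : Set.Iic (f n) = insert (f n) (Set.Iio (f n)) := by
        ext x
        simp [le_iff_eq_or_lt]
      rw [this]
      exact Set.Countable.insert _ (Set.countable_coe_iff.1 (hIio _))
    have h3 := h2.mono h1
    rw [Set.countable_univ_iff, ← Cardinal.mk_le_aleph0_iff] at h3
    have h4 : Cardinal.mk (Cardinal.aleph.{0} 1).ord.ToType = Cardinal.aleph 1 := by simp
    rw [h4] at h3
    exact absurd h3 (not_le.2 Cardinal.aleph0_lt_aleph_one)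

end Pool.Agent.H908R2.JOmega
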