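import Mathlib

set_option autoImplicit false

open Set Topology

namespace Pool.Agent.H908R2

/-- In a sober space a filtered family of compact saturated sets with intersection inside an open
set has a member inside that open set. -/
theorem wf_of_sober {X : Type} [TopologicalSpace X] [QuasiSober X]
    (𝒦 : Set (Set X)) (hne : 𝒦.Nonempty) (hdir : DirectedOn (· ⊇ ·) 𝒦)
    (h𝒦 : ∀ K ∈ 𝒦, IsCompact K)
    (hsat : ∀ K ∈ 𝒦, ∀ x y : X, y ∈ closure {x} → y ∈ K → x ∈ K)
    (U : Set X) (hU : IsOpen U)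
    (hsub : ⋂₀ 𝒦 ⊆ U) : ∃ K ∈ 𝒦, K ⊆ U := by
  by_contra hcon
  push Not at hcon
  let S : Set (Set X) := {C | IsClosed C ∧ C ⊆ Uᶜ ∧ ∀ K ∈ 𝒦, (K ∩ C).Nonempty}
  have hUS : Uᶜ ∈ S := by
    refine ⟨hU.isClosed_compl, Subset.rfl, fun K hK => ?_⟩
    obtain ⟨x, hx, hxU⟩ := not_subset.1 (hcon K hK)
    exact ⟨x, hx, hxU⟩
  obtain ⟨C, hC⟩ : ∃ C, Minimal (· ∈ S) C := by
    refine zorn_superset S ?_
    intro c hc hchain
    rcases c.eq_empty_or_nonempty with rfl | hcne
    · exact ⟨Uᶜ, hUS, fun s hs => hs.elim⟩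
    · refine ⟨⋂₀ c, ⟨isClosed_sInter fun s hs => (hc hs).1, ?_, ?_⟩, fun s hs => sInter_subset_of_mem hs⟩
      · obtain ⟨s, hs⟩ := hcne
        exact (sInter_subset_of_mem hs).trans (hc hs).2.1
      · intro K hK
        by_contra hemp
        rw [not_nonempty_iff_eq_empty] at hemp
        have : Nonempty c := hcne.to_subtype
        have hdirc : Directed (· ⊇ ·) (fun s : c => (s : Set X)) := by
          intro s t
          rcases hchain.total s.2 t.2 with h | h
          · exact ⟨s, Subset.rfl, h⟩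
          · exact ⟨t, h, Subset.rfl⟩
        obtain ⟨s, hs⟩ := IsCompact.elim_directed_family_closed (h𝒦 K hK)
          (fun s : c => (s : Set X)) (fun s => (hc s.2).1) (by rw [← sInter_eq_iInter]; exact hemp) hdirc
        have := (hc s.2).2.2 K hK
        rw [hs] at this
        exact not_nonempty_empty this
  have hCS : C ∈ S := hC.prop
  have hirr : IsIrreducible C := by
    refine ⟨?_, ?_⟩
    · obtain ⟨K, hK⟩ := hne
      exact (hCS.2.2 K hK).mono inter_subset_right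
    · rw [isPreirreducible_iff_isClosed_union_isClosed]
      intro Z₁ Z₂ hZ₁ hZ₂ hCZ
      by_contra hcon'
      push Not at hcon'
      obtain ⟨h1, h2⟩ := hcon'
      have key : ∀ Z : Set X, IsClosed Z → ¬ C ⊆ Z → ∃ K ∈ 𝒦, K ∩ (C ∩ Z) = ∅ := by
        intro Z hZ hCZ'
        by_contra hcon''
        push Not at hcon''
        have hmem : C ∩ Z ∈ S :=
          ⟨hCS.1.inter hZ, inter_subset_left.trans hCS.2.1, fun K hK => hcon'' K hK⟩
        exact hCZ' fun x hx => (hC.le_of_le hmem inter_subset_left hx).2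
      obtain ⟨K₁, hK₁, e1⟩ := key Z₁ hZ₁ h1
      obtain ⟨K₂, hK₂, e2⟩ := key Z₂ hZ₂ h2
      obtain ⟨K₃, hK₃, h31, h32⟩ := hdir K₁ hK₁ K₂ hK₂
      obtain ⟨x, hxK, hxC⟩ := hCS.2.2 K₃ hK₃
      rcases hCZ hxC with h | h
      · have : x ∈ K₁ ∩ (C ∩ Z₁) := ⟨h31 hxK, hxC, h⟩
        rw [e1] at this
        exact this
      · have : x ∈ K₂ ∩ (C ∩ Z₂) := ⟨h32 hxK, hxC, h⟩
        rw [e2] at this
        exact this
  obtain ⟨x, hx⟩ := QuasiSober.sober hirr hCS.1
  have hx' : closure {x} = C := hx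
  have hxC : x ∈ C := by rw [← hx']; exact subset_closure rfl
  refine hCS.2.1 hxC (hsub ?_)
  intro K hK
  obtain ⟨y, hyK, hyC⟩ := hCS.2.2 K hK
  exact hsat K hK x y (by rw [hx']; exact hyC) hyK

end Pool.Agent.H908R2
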